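import Pool.Agent.Helper20.NS5.Goals

/-!
# Packet NS5-NUM (MP_c578c8_lc): the real inequality for the final bound
-/

set_option autoImplicit false

namespace Pool.Agent.Helper5.NS5

open Pool.Agent.Helper20.NS5

theorem num_nat (k e n i m N' NJ N : ℕ) (hN' : N' ≤ 2 ^ n) (hNJ : NJ ≤ (N + 1) ^ (i + 1)) :
    (2 * (k + 1)) ^ (2 * (k + 1) + 1) * 2 ^ (2 * (k + 1) * (e + 4)) *
      ((m + 3 * i + 2) + 1) ^ 2 * 2 ^ ((k + 1) * n + (m + 3 * i + 2)) * N' * NJ ^ (k + 1 - 1) ≤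
    (((2 * (k + 1)) ^ 2 * 2 ^ (e + 4) * 48 ^ (i + 1) * (m + 1)) ^ (2 * (k + 1))) *
      2 ^ (n * (k + 1)) * (2 ^ (n + m) * (N + 1) ^ ((i + 1) * k)) := by
  have h1 : (2 * (k + 1)) ^ (2 * (k + 1) + 1) ≤ (2 * (k + 1)) ^ (2 * (2 * (k + 1))) :=
    Nat.pow_le_pow_right (by omega) (by omega)
  have h2 : (m + 3 * i + 2) + 1 ≤ (m + 1) * (3 * (i + 1)) := by nlinarith
  have h3 : i + 1 ≤ 2 ^ i := Nat.lt_two_pow_self
  have h4 : 3 * (i + 1) * 2 ^ (3 * i + 2) ≤ 48 ^ (i + 1) := by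
    have e1 : 2 ^ (3 * i + 2) = 4 * 8 ^ i := by
      rw [pow_add, pow_mul]; norm_num [mul_comm]
    have e2 : (2 : ℕ) ^ i * 8 ^ i = 16 ^ i := by rw [← mul_pow]; norm_num
    have e3 : (16 : ℕ) ^ i ≤ 48 ^ i := Nat.pow_le_pow_left (by norm_num) i
    calc 3 * (i + 1) * 2 ^ (3 * i + 2) ≤ 3 * 2 ^ i * (4 * 8 ^ i) := by
          rw [e1]
          exact Nat.mul_le_mul_right _ (Nat.mul_le_mul_left _ h3)
      _ = 12 * (2 ^ i * 8 ^ i) := by ring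
      _ = 12 * 16 ^ i := by rw [e2]
      _ ≤ 48 * 48 ^ i := Nat.mul_le_mul (by norm_num) e3
      _ = 48 ^ (i + 1) := by rw [pow_succ]; ring
  set B := 48 ^ (i + 1) * (m + 1) with hB
  have hB0 : 1 ≤ B := Nat.one_le_iff_ne_zero.2 (by positivity)
  have h5 : ((m + 3 * i + 2) + 1) * 2 ^ (3 * i + 2) ≤ B := by
    calc ((m + 3 * i + 2) + 1) * 2 ^ (3 * i + 2) ≤ (m + 1) * (3 * (i + 1)) * 2 ^ (3 * i + 2) :=
          Nat.mul_le_mul_right _ h2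
      _ = (3 * (i + 1) * 2 ^ (3 * i + 2)) * (m + 1) := by ring
      _ ≤ 48 ^ (i + 1) * (m + 1) := Nat.mul_le_mul_right _ h4
  have h6 : ((m + 3 * i + 2) + 1) ^ 2 * 2 ^ (3 * i + 2) ≤ B ^ (2 * (k + 1)) := by
    calc ((m + 3 * i + 2) + 1) ^ 2 * 2 ^ (3 * i + 2) ≤
          ((m + 3 * i + 2) + 1) ^ 2 * (2 ^ (3 * i + 2)) ^ 2 := by
          refine Nat.mul_le_mul_left _ ?_
          exact Nat.le_self_pow (by norm_num) _
      _ = (((m + 3 * i + 2) + 1) * 2 ^ (3 * i + 2)) ^ 2 := by rw [mul_pow]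
      _ ≤ B ^ 2 := Nat.pow_le_pow_left h5 2
      _ ≤ B ^ (2 * (k + 1)) := Nat.pow_le_pow_right hB0 (by omega)
  have h7 : NJ ^ (k + 1 - 1) ≤ (N + 1) ^ ((i + 1) * k) := by
    rw [Nat.add_sub_cancel, pow_mul]
    exact Nat.pow_le_pow_left hNJ k
  calc (2 * (k + 1)) ^ (2 * (k + 1) + 1) * 2 ^ (2 * (k + 1) * (e + 4)) *
      ((m + 3 * i + 2) + 1) ^ 2 * 2 ^ ((k + 1) * n + (m + 3 * i + 2)) * N' * NJ ^ (k + 1 - 1)
      = (2 * (k + 1)) ^ (2 * (k + 1) + 1) * 2 ^ (2 * (k + 1) * (e + 4)) *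
        (((m + 3 * i + 2) + 1) ^ 2 * 2 ^ (3 * i + 2)) * 2 ^ ((k + 1) * n) * 2 ^ m * N' *
          NJ ^ (k + 1 - 1) := by
        rw [show (k + 1) * n + (m + 3 * i + 2) = (3 * i + 2) + ((k + 1) * n + m) by ring,
          pow_add 2 (3 * i + 2), pow_add 2 ((k + 1) * n)]
        ring
    _ ≤ (2 * (k + 1)) ^ (2 * (2 * (k + 1))) * 2 ^ (2 * (k + 1) * (e + 4)) *
        (B ^ (2 * (k + 1))) * 2 ^ ((k + 1) * n) * 2 ^ m * 2 ^ n *
          (N + 1) ^ ((i + 1) * k) := by gcongr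
    _ = (((2 * (k + 1)) ^ 2 * 2 ^ (e + 4) * 48 ^ (i + 1) * (m + 1)) ^ (2 * (k + 1))) *
      2 ^ (n * (k + 1)) * (2 ^ (n + m) * (N + 1) ^ ((i + 1) * k)) := by
        have e1 : ((2 * (k + 1)) ^ 2 * 2 ^ (e + 4) * 48 ^ (i + 1) * (m + 1)) ^ (2 * (k + 1)) =
            (2 * (k + 1)) ^ (2 * (2 * (k + 1))) * 2 ^ (2 * (k + 1) * (e + 4)) *
              B ^ (2 * (k + 1)) := by
          rw [hB, mul_assoc, mul_pow, mul_pow, ← pow_mul, ← pow_mul,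
            mul_comm (e + 4) (2 * (k + 1))]
        rw [e1, pow_add 2 n m, mul_comm n (k + 1)]
        ring

theorem num : NUM_stmt := by
  intro k e n i m N' NJ N S hS hN' hNJ
  have h1 := num_nat k e n i m N' NJ N hN' hNJ
  set Y : ℝ := 2 ^ ((n : ℝ) + m) * ((N : ℝ) + 1) ^ ((i + 1) * k) with hY
  have hY0 : 0 ≤ Y := by positivity
  have hYc : Y = ((2 ^ (n + m) * (N + 1) ^ ((i + 1) * k) : ℕ) : ℝ) := by
    rw [hY]
    push_cast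
    rw [← Nat.cast_add, Real.rpow_natCast]
  refine le_of_pow_le_pow_left₀ (n := 2 * (k + 1)) (by omega) (by positivity) ?_
  have e1 : |(S : ℝ)| ^ (2 * (k + 1)) = ((S ^ (2 * (k + 1)) : ℤ) : ℝ) := by
    rw [Even.pow_abs (even_two_mul _)]
    push_cast
    rfl
  have e2 : ((2 : ℝ) ^ ((n : ℝ) / 2)) ^ (2 * (k + 1)) = 2 ^ (n * (k + 1)) := by
    rw [← Real.rpow_natCast, ← Real.rpow_mul (by norm_num), ← Real.rpow_natCast]
    congr 1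
    push_cast
    ring
  have e3 : (Y ^ (1 / (2 * (k : ℝ) + 2))) ^ (2 * (k + 1)) = Y := by
    rw [← Real.rpow_natCast, ← Real.rpow_mul hY0]
    have h2 : 1 / (2 * (k : ℝ) + 2) * ((2 * (k + 1) : ℕ) : ℝ) = 1 := by
      push_cast
      have h3 : (2 * (k : ℝ) + 2) ≠ 0 := by positivity
      field_simp
    rw [h2, Real.rpow_one]
  rw [e1, mul_pow, e3, mul_pow, e2, hYc]
  calc ((S ^ (2 * (k + 1)) : ℤ) : ℝ) ≤ (((2 * (k + 1)) ^ (2 * (k + 1) + 1) *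
        2 ^ (2 * (k + 1) * (e + 4)) * ((m + 3 * i + 2) + 1) ^ 2 *
        2 ^ ((k + 1) * n + (m + 3 * i + 2)) * N' * NJ ^ (k + 1 - 1) : ℕ) : ℝ) := by
        exact_mod_cast hS
    _ ≤ (((((2 * (k + 1)) ^ 2 * 2 ^ (e + 4) * 48 ^ (i + 1) * (m + 1)) ^ (2 * (k + 1))) *
      2 ^ (n * (k + 1)) * (2 ^ (n + m) * (N + 1) ^ ((i + 1) * k)) : ℕ) : ℝ) := by
        exact_mod_cast h1
    _ = _ := by
        push_cast
        ring

end Pool.Agent.Helper5.NS5
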